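import Pool.Agent.Helper68.QC.St6

/-!
PART M of project QD (MP_d112a4_gt), module TOR: the torus inequality for a general element.
-/

set_option autoImplicit false

namespace Pool.Agent.Helper24.QCM

open Pool.Agent.Helper68.QC
open MeasureTheory Set Filter Topology Complex
open scoped ContDiff ComplexConjugate ENNReal

private theorem tor_det (L : ℂ →L[ℝ] ℂ) (c : ℂ) (h : ∀ z, L z = c * z) : L.det = ‖c‖ ^ 2 := by
  have h1 : L.det = (LinearMap.toMatrix Complex.basisOneI Complex.basisOneI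
      (L : ℂ →ₗ[ℝ] ℂ)).det := by
    rw [LinearMap.det_toMatrix]
  rw [h1, Matrix.det_fin_two]
  simp only [LinearMap.toMatrix_apply, Complex.coe_basisOneI_repr, Complex.coe_basisOneI,
    ContinuousLinearMap.coe_coe, h]
  rw [← Complex.normSq_eq_norm_sq, Complex.normSq_apply]
  simp

private theorem crd_ne_one {a b : ℂ} (hab : a ≠ b) (x : ℂ) : crd a b x ≠ 1 := by
  unfold crd
  intro h
  by_cases hx : x - b = 0
  · rw [hx, div_zero] at h
    exact zero_ne_one h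
  · rw [div_eq_one_iff_eq hx] at h
    apply hab
    linear_combination -h

private theorem crd_sub_one {a b x : ℂ} (hx : x ≠ b) :
    crd a b x - 1 = (b - a) / (x - b) := by
  have h1 : x - b ≠ 0 := sub_ne_zero.2 hx
  unfold crd
  field_simp
  ring

private theorem crd_inv {a b : ℂ} (hab : a ≠ b) {x : ℂ} (hx : x ≠ b) :
    (b * crd a b x - a) / (crd a b x - 1) = x := by
  have h1 : x - b ≠ 0 := sub_ne_zero.2 hx
  have h3 : b - a ≠ 0 := sub_ne_zero.2 hab.symm
  have h4 : b * crd a b x - a = x * (b - a) / (x - b) := by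
    unfold crd
    field_simp
    ring
  rw [crd_sub_one hx, h4]
  field_simp

private theorem crd_of_inv {a b : ℂ} (hab : a ≠ b) {η : ℂ} (hη : η ≠ 1) :
    (b * η - a) / (η - 1) ≠ b ∧ crd a b ((b * η - a) / (η - 1)) = η := by
  have h1 : η - 1 ≠ 0 := sub_ne_zero.2 hη
  have h3 : b - a ≠ 0 := sub_ne_zero.2 hab.symm
  have h2 : (b * η - a) / (η - 1) - b = (b - a) / (η - 1) := by
    field_simp
    ring
  have h4 : (b * η - a) / (η - 1) - a = (b - a) * η / (η - 1) := by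
    field_simp
    ring
  refine ⟨?_, ?_⟩
  · rw [← sub_ne_zero, h2]
    exact div_ne_zero h3 h1
  · unfold crd
    rw [h2, h4]
    field_simp

private theorem crd_diff {a b x : ℂ} (hx : x ≠ b) :
    HasDerivAt (crd a b) ((a - b) / (x - b) ^ 2) x := by
  have h1 : x - b ≠ 0 := sub_ne_zero.2 hx
  have h2 : HasDerivAt (fun y : ℂ => y - a) 1 x := (hasDerivAt_id x).sub_const a
  have h3 : HasDerivAt (fun y : ℂ => y - b) 1 x := (hasDerivAt_id x).sub_const b
  have h4 := h2.div h3 h1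
  refine h4.congr_deriv ?_
  field_simp
  ring

private theorem mob_sub (A : SL) {x y : ℂ} (hx : den A x ≠ 0) (hy : den A y ≠ 0) :
    mob A x - mob A y = (x - y) / (den A x * den A y) := by
  have hdet : A 0 0 * A 1 1 - A 0 1 * A 1 0 = 1 := by
    have := A.det_coe
    rwa [Matrix.det_fin_two] at this
  unfold mob
  rw [div_sub_div _ _ hx hy]
  congr 1
  unfold den
  linear_combination (x - y) * hdet

private theorem den_null (A : SL) : ∀ᵐ z : ℂ, den A z ≠ 0 := by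
  have hdet : A 0 0 * A 1 1 - A 0 1 * A 1 0 = 1 := by
    have := A.det_coe
    rwa [Matrix.det_fin_two] at this
  rw [ae_iff]
  apply Set.Subsingleton.measure_zero
  intro x hx y hy
  simp only [not_not] at hx hy
  have hx' : den A x = 0 := hx
  have hy' : den A y = 0 := hy
  unfold den at hx' hy'
  by_contra hxy
  have h1 : A 1 0 * (x - y) = 0 := by linear_combination hx' - hy'
  rcases mul_eq_zero.1 h1 with h | h
  · have h2 : A 1 1 = 0 := by
      rw [h, zero_mul, zero_add] at hx'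
      exact hx'
    rw [h, h2] at hdet
    norm_num at hdet
  · exact hxy (sub_eq_zero.1 h)

private theorem tor_alg (M m C X D β X' D' β' : ℂ) (hX' : X' ≠ 0) (hD' : D' ≠ 0) (hβ' : β' ≠ 0)
    (h : M * D ^ 2 = m * D' ^ 2) :
    M * (C * ((X * (D * β)) ^ 2 / (X' * (D' * β')) ^ 2)) * β' ^ 2 =
      m * (C * (X ^ 2 / X' ^ 2)) * β ^ 2 := by
  have e1 : M * (C * ((X * (D * β)) ^ 2 / (X' * (D' * β')) ^ 2)) * β' ^ 2 =
      (M * D ^ 2) * (C * X ^ 2 * β ^ 2 / (X' ^ 2 * D' ^ 2)) := by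
    field_simp
  rw [e1, h]
  field_simp

private theorem tor_pull {a b : ℂ} (hab : a ≠ b) {P : ℂ → Prop} (hP : ∀ᵐ z : ℂ, P z) :
    ∀ᵐ η : ℂ, η ≠ 1 → P ((b * η - a) / (η - 1)) := by
  rw [ae_iff] at hP ⊢
  have h1 : volume ({z : ℂ | ¬ P z} \ {b}) = 0 := measure_mono_null diff_subset hP
  have h2 : DifferentiableOn ℝ (crd a b) ({z : ℂ | ¬ P z} \ {b}) := by
    intro x hx
    have hxb : x ≠ b := fun h => hx.2 h
    exact ((crd_diff hxb).differentiableAt.restrictScalars ℝ).differentiableWithinAt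
  refine measure_mono_null ?_
    (addHaar_image_eq_zero_of_differentiableOn_of_addHaar_eq_zero volume h2 h1)
  intro η hη
  have hη' : ¬ (η ≠ 1 → P ((b * η - a) / (η - 1))) := hη
  rw [Classical.not_imp] at hη'
  obtain ⟨h3, h4⟩ := crd_of_inv hab hη'.1
  exact ⟨_, ⟨hη'.2, h3⟩, h4⟩

/-- the invariance in the new coordinate -/
private theorem tor_inv {μ : ℂ → ℂ} {A : SL} {a b l : ℂ} (hI : InvB A μ) (hM : Mult A a b l) :
    InvL l (muT a b μ) := by
  obtain ⟨hab, ha0, ha, hb0, hb, hm⟩ := hM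
  have h1 := tor_pull hab (hI.and (den_null A))
  have h2 : ∀ᵐ η : ℂ, η ≠ 0 := by
    rw [ae_iff]
    simp
  have h3 : ∀ᵐ η : ℂ, η ≠ 1 := by
    rw [ae_iff]
    simp
  filter_upwards [h1, h2, h3] with η g1 g2 g3
  obtain ⟨g4, g5⟩ := g1 g3
  obtain ⟨g6, g7⟩ := crd_of_inv hab g3
  set z := (b * η - a) / (η - 1) with hz
  have hz0 : z - b ≠ 0 := sub_ne_zero.2 g6
  have hba : b - a ≠ 0 := sub_ne_zero.2 hab.symm
  -- the image point
  have hmb : mob A z - b = (z - b) / (den A z * den A b) := by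
    have := mob_sub A g5 hb0
    rwa [hb] at this
  have hma : mob A z - a = (z - a) / (den A z * den A a) := by
    have := mob_sub A g5 ha0
    rwa [ha] at this
  have hmb0 : mob A z ≠ b := by
    rw [← sub_ne_zero, hmb]
    exact div_ne_zero hz0 (mul_ne_zero g5 hb0)
  have hab1 : den A a * den A b = 1 := by
    have h := mob_sub A ha0 hb0
    rw [ha, hb] at h
    have h' : a - b ≠ 0 := sub_ne_zero.2 hab
    have h'' := mul_ne_zero ha0 hb0
    rw [eq_div_iff h''] at h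
    have := mul_left_cancel₀ h' (h.trans (mul_one _).symm)
    exact this
  have hT : crd a b (mob A z) = Complex.exp l * η := by
    rw [hm z g6 g5, g7]
  have hT1 : Complex.exp l * η - 1 = (η - 1) * (den A z * den A b) := by
    rw [← hT, crd_sub_one hmb0, hmb, ← g7, crd_sub_one g6]
    field_simp
  have hE : Complex.exp l = den A b ^ 2 := by
    have h4 : crd a b (mob A z) = crd a b z * den A b ^ 2 := by
      unfold crd
      rw [hmb, hma]
      have h5 : den A a = (den A b)⁻¹ := eq_inv_of_mul_eq_one_left hab1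
      rw [h5]
      field_simp
    rw [hT, g7, mul_comm] at h4
    exact mul_left_cancel₀ g2 h4
  have hS : (b * (Complex.exp l * η) - a) / (Complex.exp l * η - 1) = mob A z := by
    rw [← hT]
    exact crd_inv hab hmb0
  have hX' : conj (η - 1) ≠ 0 := by
    rw [Ne, map_eq_zero]
    exact sub_ne_zero.2 g3
  have hD' : conj (den A z) ≠ 0 := by
    rw [Ne, map_eq_zero]
    exact g5
  have hβ' : conj (den A b) ≠ 0 := by
    rw [Ne, map_eq_zero]
    exact hb0
  unfold muT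
  rw [hS, hT1, ← hz, hE, map_pow, map_mul, map_mul]
  exact tor_alg _ _ _ _ _ _ _ _ _ hX' hD' hβ' g4

private theorem tor_norm {a b : ℂ} (hab : a ≠ b) (μ : ℂ → ℂ) {ξ : ℂ} (hξ : ξ ≠ b) :
    ‖muT a b μ (crd a b ξ)‖ = ‖μ ξ‖ := by
  unfold muT
  rw [crd_inv hab hξ, norm_mul, norm_mul, norm_div, norm_div, norm_pow, norm_pow,
    RCLike.norm_conj, RCLike.norm_conj]
  have h1 : ‖a - b‖ ≠ 0 := norm_ne_zero_iff.2 (sub_ne_zero.2 hab)
  have h2 : ‖crd a b ξ - 1‖ ≠ 0 := norm_ne_zero_iff.2 (sub_ne_zero.2 (crd_ne_one hab ξ))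
  rw [div_self h1, div_self (pow_ne_zero 2 h2), mul_one, mul_one]

private theorem crd_meas (a b : ℂ) : Measurable (crd a b) :=
  (measurable_id.sub_const a).div (measurable_id.sub_const b)

/-- change of variables -/
private theorem tor_int {a b : ℂ} (hab : a ≠ b) (μ : ℂ → ℂ) (l : ℂ) :
    ∫ η in ann l, ‖muT a b μ η‖ ^ 2 / ‖η‖ ^ 2 =
      ∫ ξ in {ξ : ℂ | 1 ≤ ‖crd a b ξ‖ ∧ ‖crd a b ξ‖ < Real.exp l.re},
        ‖μ ξ‖ ^ 2 * (‖a - b‖ ^ 2 / (‖ξ - a‖ ^ 2 * ‖ξ - b‖ ^ 2)) := by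
  set F : Set ℂ := {ξ : ℂ | 1 ≤ ‖crd a b ξ‖ ∧ ‖crd a b ξ‖ < Real.exp l.re} with hF
  have hFm : MeasurableSet F :=
    (measurableSet_le measurable_const (crd_meas a b).norm).inter
      (measurableSet_lt (crd_meas a b).norm measurable_const)
  have hFb : ∀ ξ ∈ F, ξ ≠ b := by
    rintro ξ ⟨h1, -⟩ rfl
    unfold crd at h1
    rw [sub_self, div_zero, norm_zero] at h1
    norm_num at h1
  have hFa : ∀ ξ ∈ F, ξ ≠ a := by
    rintro ξ ⟨h1, -⟩ rfl
    unfold crd at h1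
    rw [sub_self, zero_div, norm_zero] at h1
    norm_num at h1
  have himg : crd a b '' F = ann l \ {1} := by
    ext η
    constructor
    · rintro ⟨ξ, hξ, rfl⟩
      exact ⟨hξ, crd_ne_one hab ξ⟩
    · rintro ⟨h1, h2⟩
      obtain ⟨h3, h4⟩ := crd_of_inv hab (show η ≠ 1 from h2)
      refine ⟨_, ?_, h4⟩
      rw [hF, mem_setOf_eq, h4]
      exact h1
  have hinj : InjOn (crd a b) F := by
    intro x hx y hy hxy
    rw [← crd_inv hab (hFb x hx), ← crd_inv hab (hFb y hy), hxy]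
  let f' : ℂ → ℂ →L[ℝ] ℂ := fun ξ =>
    (ContinuousLinearMap.smulRight (1 : ℂ →L[ℂ] ℂ) ((a - b) / (ξ - b) ^ 2)).restrictScalars ℝ
  have hf' : ∀ ξ ∈ F, HasFDerivWithinAt (crd a b) (f' ξ) F ξ := by
    intro ξ hξ
    exact ((crd_diff (hFb ξ hξ)).hasFDerivAt.restrictScalars ℝ).hasFDerivWithinAt
  have hcv := integral_image_eq_integral_abs_det_fderiv_smul volume hFm hf' hinj
    (fun η => ‖muT a b μ η‖ ^ 2 / ‖η‖ ^ 2)
  have hset : ∫ η in ann l, ‖muT a b μ η‖ ^ 2 / ‖η‖ ^ 2 =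
      ∫ η in crd a b '' F, ‖muT a b μ η‖ ^ 2 / ‖η‖ ^ 2 := by
    rw [himg]
    exact (setIntegral_congr_set (diff_null_ae_eq_self (by simp))).symm
  rw [hset, hcv]
  refine setIntegral_congr_fun hFm ?_
  intro ξ hξ
  have hb := hFb ξ hξ
  have ha := hFa ξ hξ
  have hdet : (f' ξ).det = ‖(a - b) / (ξ - b) ^ 2‖ ^ 2 := by
    apply tor_det
    intro z
    simp [f', mul_comm]
  have h1 : ‖ξ - a‖ ≠ 0 := norm_ne_zero_iff.2 (sub_ne_zero.2 ha)
  have h2 : ‖ξ - b‖ ≠ 0 := norm_ne_zero_iff.2 (sub_ne_zero.2 hb)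
  simp only
  rw [hdet, tor_norm hab μ hb, abs_of_nonneg (by positivity), smul_eq_mul]
  unfold crd
  rw [norm_div, norm_div, norm_pow]
  field_simp

/-- TOR: the torus inequality for a general element -/
theorem pTOR : Pool.Agent.Helper68.QC.StTOR := by
  intro hSph hSt hSTI k hk0 hk1 μ hμ A B a b l hI hW hM hl
  have hinv := tor_inv hI hM
  obtain ⟨hab, ha0, ha, hb0, hb, hm⟩ := hM
  obtain ⟨hBel, hcrd⟩ := hSph k hk1 μ hμ a b hab
  obtain ⟨l', hl1, hl2, hl3, hl4⟩ := hSTI hSt k hk0 hk1 (muT a b μ) hBel l hl hinv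
  refine ⟨l', ⟨?_, ?_, ?_, ?_, ?_, ?_⟩, hl3, ?_⟩
  · exact fun h => hab ((nq μ).injective h)
  · exact fun h => ha0 ((hW.1 a).2 h)
  · rw [← hW.2.1 a ha0, ha]
  · exact fun h => hb0 ((hW.1 b).2 h)
  · rw [← hW.2.1 b hb0, hb]
  · intro ζ hζ hdζ
    obtain ⟨ξ, rfl⟩ := (nq μ).surjective ζ
    have hξ : ξ ≠ b := fun h => hζ (by rw [h])
    have hdξ : den A ξ ≠ 0 := fun h => hdζ ((hW.1 ξ).1 h)
    have hmb : mob A ξ ≠ b := by
      have h1 := mob_sub A hdξ hb0
      rw [hb] at h1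
      rw [← sub_ne_zero, h1]
      exact div_ne_zero (sub_ne_zero.2 hξ) (mul_ne_zero hdξ hb0)
    rw [← hW.2.1 ξ hdξ]
    have e1 := hcrd (mob A ξ) hmb
    have e2 := hcrd ξ hξ
    have e3 : crd (nq μ a) (nq μ b) (nq μ (mob A ξ)) = nq (muT a b μ) (crd a b (mob A ξ)) := by
      rw [e1]; rfl
    have e4 : crd (nq μ a) (nq μ b) (nq μ ξ) = nq (muT a b μ) (crd a b ξ) := by
      rw [e2]; rfl
    rw [e3, e4, hm ξ hξ hdξ, hl2]
  · rw [← tor_int hab μ l]
    exact hl4

end Pool.Agent.Helper24.QCM
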